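import Pool.Agent.V1184.Bic.Cls6

/-!
# MP_7c1678_co, Q1: classification of bicompatible permutation statistics

Every permutation statistic which is shuffle-compatible and substring-compatible is equivalent to
one of `Des`, `Pk`, `Val`, `triv`.

`Ok`, `SameOrder`, `IsStatistic`, `Sh`, `ShuffleCompatible`, `SubstringCompatible` are the
definitions of the problem (files `Pool/Agent/V1184/Bic/Lie.lean` and `Stat.lean`); `Des`, `Pk`,
`Val`, `Equivalent` are in `Pool/Agent/V1184/Bic/Cls6.lean`.
-/

namespace Pool.Agent.Results.MP_7c1678_co.Classification

open Pool.Agent.V1184.Bic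

theorem result {α : Type*} (st : List ℕ → α)
    (hstat : IsStatistic st) (hshuffle : ShuffleCompatible st) (hsub : SubstringCompatible st) :
    Equivalent st Des ∨ Equivalent st Pk ∨ Equivalent st Val ∨ Equivalent st (fun _ => ()) :=
  classification hstat hshuffle hsub

end Pool.Agent.Results.MP_7c1678_co.Classification
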